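import Pool.Agent.Helper86_DA.Gst
import Pool.Agent.Helper3_DA.FLemma

/-!
Module LF: an unlinked unit with exactly one port at each of its vertices, not both leaves.
-/

set_option autoImplicit false
set_option linter.unusedSectionVars false

namespace CLB.H4

open Finset Classical
open H3DA (Q neg nr)
open CLB.H95
open CLB.H3
open CLB.H86

theorem lf : LfH := by
  intro V _ G R hG hc m z c hcat w w' hme hwL hwL' p q hcp hcq hp2 hpm hq2 hqm hup huq
  have hm := hcat.pos
  have hm3 : 3 ≤ m := by omega
  obtain ⟨f, D, hK⟩ := exists_ktight hG hc hcat (by omega)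
  obtain ⟨f1, f2, f3, f4⟩ := fits_other hcat hK.ok
  have hww : w ≠ w' := hme.ne
  have hfq : f w' = neg (f w) := f1 _ _ hme
  have hposp : pos m p = p := pos_mid (by omega) (by omega)
  have hpq := mates_dist hG hc hcat (i := p) (j := q) (by omega) hqm (by rw [hcp, hcq]; exact hme)
  rw [hposp] at hpq
  have hzp : G.Adj w (z p) := by
    have := cat_adj_pos hcat (j := p) (by omega)
    rwa [hposp, hcp] at this
  have hzq : G.Adj w' (z (pos m q)) := by
    have := cat_adj_pos hcat (j := q) hqm
    rwa [hcq] at this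
  have hpKq1 := one_le_pos (j := q) hm
  have hpKq2 := pos_le hm hqm
  have hzpK : z p ∈ cSupp m z := mem_cSupp (by omega) (by omega)
  have hzqK : z (pos m q) ∈ cSupp m z := mem_cSupp hpKq1 hpKq2
  have hzup := hcat.unc p (by omega) (by omega)
  have hzuq := hcat.unc (pos m q) hpKq1 hpKq2
  -- vertices with two neighbours are outside of `K`
  have htwoK : ∀ v a b, IsTwo G R v a b → v ∉ cSupp m z := by
    rintro v a b hT ⟨i, h1, h2, rfl⟩
    exact isTwo_not_cat hcat h1 h2 hT
  -- the new labellings
  set g : Q → V → Q := fun t v => if v = w then t else if v = w' then neg t else f v with hgdef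
  have gp : ∀ t, g t w = t := fun t => by simp only [hgdef, if_true]
  have gq : ∀ t, g t w' = neg t := fun t => by simp only [hgdef, hww.symm, if_true, if_false]
  have go : ∀ t v, v ≠ w → v ≠ w' → g t v = f v := fun t v h1 h2 => by
    simp only [hgdef, h1, h2, if_false]
  have gc : ∀ t l, l ≤ m + 1 → l ≠ p → l ≠ q → g t (c l) = f (c l) := fun t l hl h1 h2 =>
    go t _ (fun h => h1 (hup l hl h)) (fun h => h2 (huq l hl h))
  -- the label excluded by the far fork
  obtain ⟨T0, hT0⟩ : ∃ T0 : Q, ∀ t, t ≠ T0 → g t (c m) ≠ neg (g t (c (m + 1))) := by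
    by_cases h1 : q = m
    · refine ⟨f (c (m + 1)), fun t ht h => ht ?_⟩
      have e1 : g t (c m) = neg t := by rw [← h1, hcq]; exact gq t
      have e2 : g t (c (m + 1)) = f (c (m + 1)) := gc t (m + 1) le_rfl (by omega) (by omega)
      rw [e1, e2] at h
      exact H3DA.neg_inj h
    by_cases h2 : q = m + 1
    · refine ⟨f (c m), fun t ht h => ht ?_⟩
      have e1 : g t (c (m + 1)) = neg t := by rw [← h2, hcq]; exact gq t
      have e2 : g t (c m) = f (c m) := gc t m (by omega) (by omega) (by omega)
      rw [e1, e2, H3DA.neg_neg] at h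
      exact h.symm
    · refine ⟨f w, fun t _ => ?_⟩
      rw [gc t (m + 1) le_rfl (by omega) (by omega), gc t m (by omega) (by omega) (by omega)]
      exact (frk_ne _ _ _ hK.tight.2.2).2
  -- the caterpillar extends
  have hext : ∀ t, t ≠ f w → t ≠ T0 → CExt m (fun l => g t (c l)) := by
    intro t ht htT
    rw [cext_iff hm]
    have e0 := gc t 0 (by omega) (by omega) (by omega)
    have e1 := gc t 1 (by omega) (by omega) (by omega)
    refine ⟨?_, hT0 t htT, fun D' hD' => ?_⟩
    · show g t (c 0) ≠ neg (g t (c 1))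
      rw [e0, e1]
      exact (frk_ne _ _ _ hK.tight.1).2
    · have hD1 : frk D' (g t (c 0)) (g t (c 1)) = true := hD'.1
      rw [e0, e1] at hD1
      have hDD : D' = D := frk_unique _ _ _ _ hD1 hK.tight.1
      subst hDD
      have a1 := hD'.2.1 (p - 1) (by omega) (by omega)
      have a2 := hD'.2.1 p (by omega) (by omega)
      have b1 := hK.tight.2.1 (p - 1) (by omega) (by omega)
      have b2 := hK.tight.2.1 p (by omega) (by omega)
      rw [show p - 1 + 1 = p by omega] at a1 b1
      have c1 : altT D' p = co (altT D' (p - 1)) := by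
        have := altT_succ D' (p - 1)
        rwa [show p - 1 + 1 = p by omega] at this
      have a1' : stp (altT D' (p - 1)) (neg (g t (c (p - 1)))) (g t (c p)) = true := a1
      have a2' : stp (altT D' p) (neg (g t (c p))) (g t (c (p + 1))) = true := a2
      have b1' : stp (altT D' (p - 1)) (neg (f (c (p - 1)))) (f (c p)) = true := b1
      have b2' : stp (altT D' p) (neg (f (c p))) (f (c (p + 1))) = true := b2
      have hq1 : p - 1 ≠ q := by
        intro h
        have := pos_mid (m := m) (j := q) (by omega) (by omega)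
        omega
      have hq2 : p + 1 ≠ q := by
        intro h
        have := pos_mid (m := m) (j := q) (by omega) (by omega)
        omega
      rw [hcp, gp, gc t (p - 1) (by omega) (by omega) hq1] at a1'
      rw [hcp, gp, gc t (p + 1) (by omega) (by omega) hq2, c1] at a2'
      rw [hcp] at b1'
      rw [hcp, c1] at b2'
      exact ht (inner_unique _ _ _ _ _ a1' a2' b1' b2')
  -- a suitable label
  obtain ⟨t, ht, htT, hTw, hTw', htP⟩ : ∃ t, t ≠ f w ∧ t ≠ T0 ∧
      (∀ v b, IsTwo G R v w b → g t w ≠ neg (g t b)) ∧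
      (∀ v b, IsTwo G R v w' b → g t w' ≠ neg (g t b)) ∧
      (∀ m' z' c', Cat G R m' z' c' → (∀ v, v ∈ cSupp m z → v ∉ cSupp m' z') →
        CExt m' (fun l => g t (c' l))) := by
    by_cases hA : ∃ m0 z0 c0, Cat G R m0 z0 c0 ∧ (∀ v, v ∈ cSupp m z → v ∉ cSupp m0 z0) ∧
        (∃ l ≤ m0 + 1, c0 l = w) ∧ ∃ l ≤ m0 + 1, c0 l = w'
    · -- one component sees both vertices
      obtain ⟨m0, z0, c0, hC0, hd0, ⟨l1, hl1, hcl1⟩, l2, hl2, hcl2⟩ := hA
      have hm0 := hC0.pos
      have hdist := mates_dist hG hc hC0 (i := l1) (j := l2) hl1 hl2 (by rw [hcl1, hcl2]; exact hme)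
      have hm5 : 5 ≤ m0 := by
        have a1 := one_le_pos (j := l1) hm0
        have a2 := one_le_pos (j := l2) hm0
        have a3 := pos_le hm0 hl1
        have a4 := pos_le hm0 hl2
        omega
      -- the third neighbours
      have third : ∀ (u u' : V) (z1 : V) (l : ℕ), Me G R u u' → G.Adj u z1 → z1 ∈ cSupp m z →
          l ≤ m0 + 1 → c0 l = u → ∀ v, G.Adj u v → ¬ Cov G R v → v ∉ cSupp m z → v = z0 (pos m0 l) := by
        intro u u' z1 l huu hz1 hz1K hl hcl v hv hvc hvK
        have ha := cat_adj_pos hC0 hl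
        rw [hcl] at ha
        have b1 := one_le_pos (j := l) hm0
        have b2 := pos_le hm0 hl
        have b3 := hC0.unc _ b1 b2
        have b4 : z0 (pos m0 l) ∈ cSupp m0 z0 := mem_cSupp b1 b2
        have n1 : u' ≠ z1 := by
          rintro rfl
          obtain ⟨i, h1, h2, h3⟩ := hz1K
          exact hcat.unc i h1 h2 (h3 ▸ huu.cov')
        have n2 : u' ≠ z0 (pos m0 l) := fun h => b3 (h ▸ huu.cov')
        have n3 : z1 ≠ z0 (pos m0 l) := fun h => hd0 _ hz1K (h ▸ b4)
        rcases hG.third huu.1 hz1 ha n1 n2 n3 hv with h | h | h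
        · exact absurd (h ▸ huu.cov') hvc
        · exact absurd (h ▸ hz1K) hvK
        · exact h
      have hv1 := third w w' (z p) l1 hme hzp hzpK hl1 hcl1
      have hv2 := third w' w (z (pos m q)) l2 hme.symm hzq hzqK hl2 hcl2
      have hJ1 : ∀ l ≤ m0 + 1, c0 l = w → l = l1 := by
        intro l hl he
        have ha := cat_adj_pos hC0 hl
        rw [he] at ha
        have b1 := one_le_pos (j := l) hm0
        have b2 := pos_le hm0 hl
        have h2 := hv1 _ ha (hC0.unc _ b1 b2) (fun h => hd0 _ h (mem_cSupp b1 b2))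
        exact port_unique hC0 hl hl1 (by rw [he, hcl1]) h2
      have hJ2 : ∀ l ≤ m0 + 1, c0 l = w' → l = l2 := by
        intro l hl he
        have ha := cat_adj_pos hC0 hl
        rw [he] at ha
        have b1 := one_le_pos (j := l) hm0
        have b2 := pos_le hm0 hl
        have h2 := hv2 _ ha (hC0.unc _ b1 b2) (fun h => hd0 _ h (mem_cSupp b1 b2))
        exact port_unique hC0 hl hl2 (by rw [he, hcl2]) h2
      have near0 : ∀ i j, i ≤ m0 + 1 → j ≤ m0 + 1 → pos m0 i = pos m0 j →
          f (c0 i) ≠ neg (f (c0 j)) := by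
        intro i j hi hj hij
        have a1 := (cat_adj_pos hC0 hi).symm
        have a2 := (cat_adj_pos hC0 hj).symm
        rw [← hij] at a2
        have hz1 := one_le_pos (j := i) hC0.pos
        have hz2 := pos_le hC0.pos hi
        have hzu := hC0.unc _ hz1 hz2
        have hzK : ¬ (z0 (pos m0 i) ∈ cSupp m z) := fun h => hd0 _ h (mem_cSupp hz1 hz2)
        have e1 := (hK.ok _ _ a1 (fun h => hzK h.1)).2 (he_of_unc hzu a1).2
        have e2 := (hK.ok _ _ a2 (fun h => hzK h.1)).2 (he_of_unc hzu a2).2
        exact H3DA.nr_common e1 e2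
      have e0 : pos m0 0 = 1 := pos_zero
      have e1 : pos m0 1 = 1 := pos_one hm0
      have e2 : pos m0 m0 = m0 := pos_mid hm0 le_rfl
      have e3 : pos m0 (m0 + 1) = m0 := pos_last
      have sep : ∀ i j, i ≤ m0 + 1 → j ≤ m0 + 1 → i ≠ j → pos m0 i = pos m0 j →
          (c0 i = w ∨ c0 i = w') → (c0 j = w ∨ c0 j = w') → False := by
        intro i j hi hj hij he h1 h2
        rcases h1 with h1 | h1 <;> rcases h2 with h2 | h2
        · exact hij ((hJ1 i hi h1).trans (hJ1 j hj h2).symm)
        · rw [hJ1 i hi h1, hJ2 j hj h2] at he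
          exact hdist.2 he
        · rw [hJ2 i hi h1, hJ1 j hj h2] at he
          exact hdist.2 he.symm
        · exact hij ((hJ2 i hi h1).trans (hJ2 j hj h2).symm)
      have hKl : Kills m0 (fun j => c0 j = w ∨ c0 j = w') (fun j => f (c0 j)) 0 := by
        refine kills (by omega) (fun h => ?_) (fun h => ?_) ⟨l1, hl1, Or.inl hcl1⟩ (fun _ _ => ?_)
          (fun _ _ => ?_) (fun _ _ => by omega)
        · exact sep 0 1 (by omega) (by omega) (by omega) (by rw [e0, e1]) h.1 h.2
        · exact sep m0 (m0 + 1) (by omega) le_rfl (by omega) (by rw [e2, e3]) h.1 h.2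
        · exact near0 0 1 (by omega) (by omega) (by rw [e0, e1])
        · exact near0 m0 (m0 + 1) (by omega) le_rfl (by rw [e2, e3])
      obtain ⟨F, hF2, -, hF⟩ := hKl
      obtain ⟨t, ht⟩ : ∃ t, t ∉ ({f w, T0} ∪ F l1 ∪ (F l2).image neg : Finset Q) := by
        by_contra hcon
        push Not at hcon
        have h1 : (univ : Finset Q) ⊆ ({f w, T0} ∪ F l1 ∪ (F l2).image neg : Finset Q) :=
          fun x _ => hcon x
        have h2 := Finset.card_le_card h1
        rw [card_univ_Q] at h2
        have h3 : ({f w, T0} : Finset Q).card ≤ 2 := Finset.card_le_two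
        have h4 : ((F l2).image neg).card ≤ 2 := Finset.card_image_le.trans (hF2 l2)
        have h5 := Finset.card_union_le ({f w, T0} ∪ F l1) ((F l2).image neg)
        have h6 := Finset.card_union_le ({f w, T0} : Finset Q) (F l1)
        have h7 := hF2 l1
        omega
      simp only [mem_union, mem_insert, mem_singleton, not_or] at ht
      obtain ⟨⟨⟨ht1, ht2⟩, ht3⟩, ht4⟩ := ht
      have ht5 : neg t ∉ F l2 := fun h => ht4 (mem_image.2 ⟨neg t, h, H3DA.neg_neg t⟩)
      refine ⟨t, ht1, ht2, fun v b hT => ?_, fun v b hT => ?_, fun m' z' c' hC hd => ?_⟩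
      · have := hv1 v hT.2.1.symm hT.1 (htwoK _ _ _ hT)
        subst this
        exact absurd hT (fun h => isTwo_not_cat hC0 (one_le_pos hm0) (pos_le hm0 hl1) h)
      · have := hv2 v hT.2.1.symm hT.1 (htwoK _ _ _ hT)
        subst this
        exact absurd hT (fun h => isTwo_not_cat hC0 (one_le_pos hm0) (pos_le hm0 hl2) h)
      · by_cases hne : ∀ l ≤ m' + 1, c' l ≠ w ∧ c' l ≠ w'
        · exact (f4 m' z' c' hC hd).congr hC.pos
            (fun l hl => (go t _ (hne l hl).1 (hne l hl).2).symm)
        · push Not at hne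
          obtain ⟨l, hl, he⟩ := hne
          have hsh : ∃ v, v ∈ cSupp m' z' ∧ v ∈ cSupp m0 z0 := by
            have ha := cat_adj_pos hC hl
            have b1 := one_le_pos (j := l) hC.pos
            have b2 := pos_le hC.pos hl
            have b3 := hC.unc _ b1 b2
            have b4 : z' (pos m' l) ∈ cSupp m' z' := mem_cSupp b1 b2
            by_cases hw : c' l = w
            · rw [hw] at ha
              have h2 := hv1 _ ha b3 (fun h => hd _ h b4)
              exact ⟨_, b4, h2 ▸ mem_cSupp (one_le_pos hm0) (pos_le hm0 hl1)⟩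
            · rw [he hw] at ha
              have h2 := hv2 _ ha b3 (fun h => hd _ h b4)
              exact ⟨_, b4, h2 ▸ mem_cSupp (one_le_pos hm0) (pos_le hm0 hl2)⟩
          obtain ⟨v, hv, hv'⟩ := hsh
          have hS := cSupp_eq hC hC0 hv hv'
          rw [cext_iff_fits hC (g t), hS, ← cext_iff_fits hC0 (g t)]
          refine hF _ (fun j hj hJ => ?_) (fun j hj hJ => ?_)
          · rw [not_or] at hJ
            exact go t _ hJ.1 hJ.2
          · rcases hJ with hJ | hJ
            · have := hJ1 j hj hJ
              subst this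
              show g t (c0 j) ∉ F j
              rw [hJ, gp]
              exact ht3
            · have := hJ2 j hj hJ
              subst this
              show g t (c0 j) ∉ F j
              rw [hJ, gq]
              exact ht5
    · -- no component sees both vertices
      obtain ⟨F1, hF1, hF1'⟩ := bad_set hG hc hcat (p := w') (q := w) hme hzp hzpK hwL hK.ok
      obtain ⟨F2, hF2, hF2'⟩ := bad_set hG hc hcat (p := w) (q := w') hme.symm hzq hzqK hwL' hK.ok
      obtain ⟨t, ht⟩ : ∃ t, t ∉ ({f w, T0} ∪ F1 ∪ F2.image neg : Finset Q) := by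
        by_contra hcon
        push Not at hcon
        have h1 : (univ : Finset Q) ⊆ ({f w, T0} ∪ F1 ∪ F2.image neg : Finset Q) :=
          fun x _ => hcon x
        have h2 := Finset.card_le_card h1
        rw [card_univ_Q] at h2
        have h3 : ({f w, T0} : Finset Q).card ≤ 2 := Finset.card_le_two
        have h4 : (F2.image neg).card ≤ 2 := Finset.card_image_le.trans hF2
        have h5 := Finset.card_union_le ({f w, T0} ∪ F1) (F2.image neg)
        have h6 := Finset.card_union_le ({f w, T0} : Finset Q) F1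
        omega
      simp only [mem_union, mem_insert, mem_singleton, not_or] at ht
      obtain ⟨⟨⟨ht1, ht2⟩, ht3⟩, ht4⟩ := ht
      have ht5 : neg t ∉ F2 := fun h => ht4 (mem_image.2 ⟨neg t, h, H3DA.neg_neg t⟩)
      obtain ⟨a1, a2⟩ := hF1' (g t) (fun v h1 h2 => go t v h2 h1) (by rw [gp]; exact ht3)
      obtain ⟨b1, b2⟩ := hF2' (g t) (fun v h1 h2 => go t v h1 h2) (by rw [gq]; exact ht5)
      refine ⟨t, ht1, ht2, a1, b1, fun m' z' c' hC hd => ?_⟩
      by_cases hne : ∀ l ≤ m' + 1, c' l ≠ w'
      · exact a2 m' z' c' hC hd hne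
      · push Not at hne
        refine b2 m' z' c' hC hd (fun l hl he => hA ⟨m', z', c', hC, hd, ⟨l, hl, he⟩, hne⟩)
  refine no_cext hG hc hcat (f := g t) ?_ ?_ ?_ ?_ (hext t ht htT)
  · intro u v huv
    by_cases hu : u = w
    · subst hu
      rw [hG.matching huv hme, gp, gq]
    by_cases hu' : u = w'
    · rw [hu'] at huv ⊢
      rw [hG.matching huv hme.symm, gp, gq, H3DA.neg_neg]
    · have hv : v ≠ w := by
        intro h
        rw [h] at huv
        exact hu' (hG.matching huv.symm hme)
      have hv' : v ≠ w' := by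
        intro h
        rw [h] at huv
        exact hu (hG.matching huv.symm hme.symm)
      rw [go t u hu hu', go t v hv hv']
      exact f1 _ _ huv
  · intro u v huv
    have h1 : u ≠ w := fun h => hwL v (h ▸ huv)
    have h2 : u ≠ w' := fun h => hwL' v (h ▸ huv)
    have h3 : v ≠ w := fun h => hwL u (h ▸ huv.symm)
    have h4 : v ≠ w' := fun h => hwL' u (h ▸ huv.symm)
    rw [go t u h1 h2, go t v h3 h4]
    exact f2 _ _ huv
  · intro v a b hT
    by_cases ha : a = w
    · rw [ha] at hT ⊢
      exact hTw v b hT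
    by_cases ha' : a = w'
    · rw [ha'] at hT ⊢
      exact hTw' v b hT
    by_cases hb : b = w
    · rw [hb] at hT ⊢
      exact H3DA.ne_neg_symm (hTw v a (isTwo_symm hT))
    by_cases hb' : b = w'
    · rw [hb'] at hT ⊢
      exact H3DA.ne_neg_symm (hTw' v a (isTwo_symm hT))
    · rw [go t a ha ha', go t b hb hb']
      exact f3 v a b hT
  · exact htP

end CLB.H4
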