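import Pool.Agent.Helper86_DA.Gst

/-!
Module S1: two neighbours of an uncovered vertex in a closed chain; components with two vertices.
-/

set_option autoImplicit false
set_option linter.unusedSectionVars false

namespace CLB.H4

open Finset Classical
open H3DA (Q neg nr)
open CLB.H95
open CLB.H3
open CLB.H86

variable {V : Type*} {H : SimpleGraph V} {R : V → Bool} {k : ℕ} {X Y : ℤ → V}

theorem per_mul {A : ℤ → V} (h : ∀ i, A (i + k) = A i) (i n : ℤ) : A (i + n * k) = A i := by
  induction n using Int.induction_on with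
  | zero => simp
  | succ n ih =>
    rw [show i + ((n : ℤ) + 1) * k = (i + n * k) + k by ring, h, ih]
  | pred n ih =>
    rw [← h, show i + (-(n : ℤ) - 1) * k + k = i + -(n : ℤ) * k by ring, ih]

theorem per_dvd {A : ℤ → V} (h : ∀ i, A (i + k) = A i) {i j : ℤ} (hd : (k : ℤ) ∣ i - j) :
    A i = A j := by
  obtain ⟨n, hn⟩ := hd
  have : i = j + n * k := by rw [mul_comm]; omega
  rw [this, per_mul h]

theorem not_dvd_one (h : CC H R k X Y) : ¬ ((k : ℤ) ∣ 1) := by
  intro hd
  have h1 := Int.le_of_dvd one_pos hd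
  have h2 := h.k2
  omega

/-- Every vertex of the chain is in a link. -/
theorem inZ_link {v : V} (h : InZ X Y v) : ∃ l, v = Y l ∨ v = X (l + 1) := by
  obtain ⟨i, hi | hi⟩ := h
  · exact ⟨i - 1, Or.inr (by rw [hi]; congr 1; ring)⟩
  · exact ⟨i, Or.inl hi⟩

theorem inZ_me [Fintype V] (hG : ClassC H R) (h : CC H R k X Y) {u v : V} (hu : InZ X Y u)
    (hm : Me H R u v) : InZ X Y v := by
  obtain ⟨i, rfl | rfl⟩ := hu
  · exact ⟨i, Or.inr (hG.matching hm (h.me i))⟩
  · exact ⟨i, Or.inl (hG.matching hm (h.me i).symm)⟩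

/-- Mates in two links: the links are consecutive. -/
theorem mates_links [Fintype V] (hG : ClassC H R) (h : CC H R k X Y) {l l' : ℤ} {u v : V}
    (hu : u = Y l ∨ u = X (l + 1) ∨ u = Y l' ∨ u = X (l' + 1))
    (hv : v = Y l ∨ v = X (l + 1) ∨ v = Y l' ∨ v = X (l' + 1)) (hm : Me H R u v) :
    (k : ℤ) ∣ l' - l - 1 ∨ (k : ℤ) ∣ l - l' - 1 := by
  have hn := not_dvd_one h
  have yx : ∀ s t, Me H R (Y s) (X t) → (k : ℤ) ∣ t - s := fun s t hm =>
    h.injX _ _ (hG.matching hm (h.me s).symm)
  have xy' : ∀ s t, Me H R (X s) (Y t) → (k : ℤ) ∣ t - s := fun s t hm =>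
    h.injY _ _ (hG.matching hm (h.me s))
  have yy : ∀ s t, ¬ Me H R (Y s) (Y t) := fun s t hm =>
    h.xy s t (hG.matching hm (h.me s).symm).symm
  have xx : ∀ s t, ¬ Me H R (X s) (X t) := fun s t hm =>
    h.xy t s (hG.matching hm (h.me s))
  have key : ∀ s t, s = t → ¬ ((k : ℤ) ∣ t + 1 - s) ∧ ¬ ((k : ℤ) ∣ s - (t + 1)) := by
    rintro s t rfl
    refine ⟨fun hd => hn (by simpa using hd), fun hd => hn ?_⟩
    have h2 := (dvd_neg (α := ℤ)).2 hd
    have e : -(s - (s + 1)) = 1 := by ring
    rwa [e] at h2
  rcases hu with rfl | rfl | rfl | rfl <;> rcases hv with rfl | rfl | rfl | rfl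
  · exact absurd hm (yy _ _)
  · exact absurd (yx _ _ hm) (key _ _ rfl).1
  · exact absurd hm (yy _ _)
  · right
    have h2 := (dvd_neg (α := ℤ)).2 (yx _ _ hm)
    have e : -(l' + 1 - l) = l - l' - 1 := by ring
    rwa [e] at h2
  · exact absurd (xy' _ _ hm) (key _ _ rfl).2
  · exact absurd hm (xx _ _)
  · left
    have h2 := xy' _ _ hm
    have e : l' - (l + 1) = l' - l - 1 := by ring
    rwa [e] at h2
  · exact absurd hm (xx _ _)
  · exact absurd hm (yy _ _)
  · left
    have h2 := (dvd_neg (α := ℤ)).2 (yx _ _ hm)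
    have e : -(l + 1 - l') = l' - l - 1 := by ring
    rwa [e] at h2
  · exact absurd hm (yy _ _)
  · exact absurd (yx _ _ hm) (key _ _ rfl).1
  · right
    have h2 := xy' _ _ hm
    have e : l - (l' + 1) = l - l' - 1 := by ring
    rwa [e] at h2
  · exact absurd hm (xx _ _)
  · exact absurd (xy' _ _ hm) (key _ _ rfl).2
  · exact absurd hm (xx _ _)

/-- Sides in a closed chain. -/
theorem side_me (h : CC H R k X Y) (i : ℤ) : R (X i) = R (Y i) := (h.me i).2

theorem side_lk (h : CC H R k X Y) (i : ℤ) : R (Y i) ≠ R (X (i + 1)) := (h.lk i).1.2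

theorem side_step (h : CC H R k X Y) (i : ℤ) : R (Y i) ≠ R (Y (i + 1)) := by
  rw [← side_me h (i + 1)]
  exact side_lk h i

theorem side_step' (h : CC H R k X Y) (i : ℤ) : R (X (i + 1)) ≠ R (X (i + 2)) := by
  have h1 := side_lk h (i + 1)
  rw [← side_me h (i + 1), show i + 1 + 1 = i + 2 by ring] at h1
  exact h1

theorem side_two (h : CC H R k X Y) (i : ℤ) : R (Y i) = R (X (i + 2)) := by
  have h1 := side_lk h i
  have h2 := side_step' h i
  revert h1 h2
  cases R (Y i) <;> cases R (X (i + 1)) <;> cases R (X (i + 2)) <;> simp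

theorem cov_of_inZ (h : CC H R k X Y) {v : V} (hv : InZ X Y v) : Cov H R v := by
  obtain ⟨i, rfl | rfl⟩ := hv
  · exact (h.me i).cov
  · exact (h.me i).cov'

/-- The number of links inside a set. -/
theorem card_le_llS {S : Finset V} (hS : ∀ u ∈ S, ∃ v ∈ S, He H R u v) : S.card ≤ llS H R S := by
  unfold llS
  rw [Finset.card_eq_sum_ones]
  refine Finset.sum_le_sum fun u hu => ?_
  obtain ⟨v, hv, huv⟩ := hS u hu
  exact Finset.card_pos.2 ⟨v, by rw [mem_filter]; exact ⟨hv, huv⟩⟩

theorem exists_mates {S : Finset V} (h : 0 < mmS H R S) : ∃ u ∈ S, ∃ v ∈ S, Me H R u v := by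
  unfold mmS at h
  by_contra hcon
  push Not at hcon
  rw [Finset.sum_eq_zero] at h
  · exact lt_irrefl _ h
  · intro u hu
    rw [Finset.card_eq_zero, Finset.filter_eq_empty_iff]
    intro v hv
    exact hcon u hu v hv

theorem two_links_he (h : CC H R k X Y) (l l' : ℤ) :
    ∀ u ∈ ({Y l, X (l + 1), Y l', X (l' + 1)} : Finset V),
      ∃ v ∈ ({Y l, X (l + 1), Y l', X (l' + 1)} : Finset V), He H R u v := by
  intro u hu
  simp only [mem_insert, mem_singleton] at hu
  rcases hu with rfl | rfl | rfl | rfl
  · exact ⟨X (l + 1), by simp, (h.lk l).1⟩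
  · exact ⟨Y l, by simp, (h.lk l).1.symm⟩
  · exact ⟨X (l' + 1), by simp, (h.lk l').1⟩
  · exact ⟨Y l', by simp, (h.lk l').1.symm⟩

theorem inZ_links (l l' : ℤ) :
    ∀ u ∈ ({Y l, X (l + 1), Y l', X (l' + 1)} : Finset V), InZ X Y u := by
  intro u hu
  simp only [mem_insert, mem_singleton] at hu
  rcases hu with rfl | rfl | rfl | rfl
  · exact ⟨_, Or.inr rfl⟩
  · exact ⟨_, Or.inl rfl⟩
  · exact ⟨_, Or.inr rfl⟩
  · exact ⟨_, Or.inl rfl⟩

/-- Module S1, first part. -/
theorem twoN : TwoNH := by
  intro V _ H R k X Y hG h z a b hz hab hza hzb ha hb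
  obtain ⟨l, hl⟩ := inZ_link ha
  obtain ⟨l', hl'⟩ := inZ_link hb
  -- the sides
  have e1 := (he_of_unc hz hza).2
  have e2 := (he_of_unc hz hzb).2
  have hR : R a = R b := by
    revert e1 e2
    cases R z <;> cases R a <;> cases R b <;> simp
  set S : Finset V := {Y l, X (l + 1), Y l', X (l' + 1)} with hS
  have haS : a ∈ S := by
    rw [hS]
    rcases hl with rfl | rfl <;> simp
  have hbS : b ∈ S := by
    rw [hS]
    rcases hl' with rfl | rfl <;> simp
  have hm : 0 < mmS H R S := by
    have key := rlaw_sets hG {z} S (by simpa using hz) (fun w hw => cov_of_inZ h (inZ_links l l' w hw))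
    have h1 := card_le_llS (two_links_he (H := H) (R := R) h l l')
    rw [← hS] at h1
    have h2 : 2 ≤ ∑ w ∈ S, eU H {z} w := by
      have h3 : ∑ w ∈ ({a, b} : Finset V), eU H {z} w ≤ ∑ w ∈ S, eU H {z} w := by
        refine Finset.sum_le_sum_of_subset fun w hw => ?_
        rw [mem_insert, mem_singleton] at hw
        rcases hw with rfl | rfl
        · exact haS
        · exact hbS
      rw [Finset.sum_pair hab] at h3
      have h4 : ∀ w, H.Adj z w → 1 ≤ eU H {z} w := fun w hw => by
        unfold eU
        exact Finset.card_pos.2 ⟨z, by rw [mem_filter]; exact ⟨by simp, hw.symm⟩⟩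
      have h5 := h4 a hza
      have h6 := h4 b hzb
      omega
    rw [Finset.card_singleton] at key
    omega
  obtain ⟨u, hu, v, hv, huv⟩ := exists_mates hm
  rw [hS] at hu hv
  simp only [mem_insert, mem_singleton] at hu hv
  -- the analysis for consecutive links
  have main : ∀ (a b : V) (l l' : ℤ), H.Adj z a → H.Adj z b → R a = R b → (a = Y l ∨ a = X (l + 1)) →
      (b = Y l' ∨ b = X (l' + 1)) → (k : ℤ) ∣ l' - l - 1 → ∃ i, a = Y i ∧ b = X (i + 2) := by
    intro a b l l' hza hzb hR hl hl' hd
    have y1 : Y l' = Y (l + 1) := per_dvd h.perY (by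
      have e : l' - (l + 1) = l' - l - 1 := by ring
      rwa [e])
    have x1 : X (l' + 1) = X (l + 2) := per_dvd h.perX (by
      have e : l' + 1 - (l + 2) = l' - l - 1 := by ring
      rwa [e])
    rw [y1, x1] at hl'
    rcases hl with rfl | rfl <;> rcases hl' with rfl | rfl
    · exact absurd hR (side_step h l)
    · exact ⟨l, rfl, rfl⟩
    · exact absurd hzb (hG.tri _ _ _ hza (h.me (l + 1)).1)
    · exact absurd hR (side_step' h l)
  rcases mates_links hG h hu hv huv with hd | hd
  · obtain ⟨i, hi⟩ := main a b l l' hza hzb hR hl hl' hd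
    exact ⟨i, Or.inl hi⟩
  · obtain ⟨i, hi⟩ := main b a l' l hzb hza hR.symm hl' hl hd
    exact ⟨i, Or.inr hi⟩

/-- Module S1, second part. -/
theorem m2 : M2H := by
  intro V _ H R k X Y hG hc h hk4 z c hcat i j hi hj2 hj3 hci hcj
  by_contra hcon
  rw [not_or, not_and_or, not_and_or] at hcon
  obtain ⟨hc01, hc23⟩ := hcon
  have p0 : pos 2 0 = 1 := rfl
  have p1 : pos 2 1 = 1 := rfl
  have p2 : pos 2 2 = 2 := rfl
  have p3 : pos 2 3 = 2 := rfl
  -- the ports outside
  set f := c (1 - i) with hf
  set f' := c (5 - j) with hf'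
  have hfn : ¬ InZ X Y f := by
    rw [hf]
    have : i = 0 ∨ i = 1 := by omega
    rcases this with rfl | rfl
    · rcases hc01 with h1 | h1
      · exact absurd hci h1
      · exact h1
    · rcases hc01 with h1 | h1
      · exact h1
      · exact absurd hci h1
  have hfn' : ¬ InZ X Y f' := by
    rw [hf']
    have : j = 2 ∨ j = 3 := by omega
    rcases this with rfl | rfl
    · rcases hc23 with h1 | h1
      · exact absurd hcj h1
      · exact h1
    · rcases hc23 with h1 | h1
      · exact h1
      · exact absurd hcj h1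
  have hnf := noFull_small hG hc hcat (by norm_num)
  -- the main inequality
  have main : ∀ T : Finset V, (∀ v ∈ T, InZ X Y v) → (∀ u ∈ T, ∀ v ∈ T, ¬ Me H R u v) →
      T.card ≤ llS H R T + 1 → c i ∈ T → c j ∈ T → False := by
    intro T hT hnm hll ha hb
    set S : Finset V := T ∪ {f, f'} with hS
    have hcS : ∀ l ≤ 3, c l ∈ S := by
      intro l hl
      rw [hS, mem_union, mem_insert, mem_singleton]
      have : i = 0 ∨ i = 1 := by omega
      have : j = 2 ∨ j = 3 := by omega
      have : l = i ∨ l = 1 - i ∨ l = j ∨ l = 5 - j := by omega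
      rcases this with rfl | rfl | rfl | rfl
      · exact Or.inl ha
      · exact Or.inr (Or.inl rfl)
      · exact Or.inl hb
      · exact Or.inr (Or.inr rfl)
    have hcov : ∀ w ∈ S, Cov H R w := by
      intro w hw
      rw [hS, mem_union, mem_insert, mem_singleton] at hw
      rcases hw with hw | rfl | rfl
      · exact cov_of_inZ h (hT w hw)
      · exact hcat.cov _ (by omega)
      · exact hcat.cov _ (by omega)
    have key := rlaw_sets hG (zs 2 z) S (zs_unc hcat) hcov
    rw [zs_card hcat] at key
    have h1 := uuS_cat hcat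
    have h2 := eU_sum_ge hcat (S := S) (J := range 4) (fun l hl => by
      have := mem_range.1 hl
      omega) (fun l hl => hcS l (by
      have := mem_range.1 hl
      omega))
    rw [card_range] at h2
    have h3 : llS H R T ≤ llS H R S := by
      unfold llS
      calc ∑ w ∈ T, (T.filter (fun v => He H R w v)).card
          ≤ ∑ w ∈ T, (S.filter (fun v => He H R w v)).card :=
            Finset.sum_le_sum fun w _ => Finset.card_le_card
              (Finset.filter_subset_filter _ Finset.subset_union_left)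
        _ ≤ ∑ w ∈ S, (S.filter (fun v => He H R w v)).card :=
            Finset.sum_le_sum_of_subset Finset.subset_union_left
    have h4 : S.card ≤ T.card + 2 := by
      rw [hS]
      have := Finset.card_union_le T {f, f'}
      have := Finset.card_le_two (a := f) (b := f')
      omega
    have h5 : mmS H R S = 0 := by
      by_contra hne
      obtain ⟨u, hu, v, hv, huv⟩ := exists_mates (Nat.pos_of_ne_zero hne)
      have out : ∀ u v, u ∈ ({f, f'} : Finset V) → v ∈ ({f, f'} : Finset V) → ¬ Me H R u v := by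
        intro u v hu hv
        rw [mem_insert, mem_singleton] at hu hv
        rcases hu with rfl | rfl <;> rcases hv with rfl | rfl
        · exact hnf _ _ (by omega) (by omega)
        · exact hnf _ _ (by omega) (by omega)
        · exact hnf _ _ (by omega) (by omega)
        · exact hnf _ _ (by omega) (by omega)
      have mixed : ∀ u v, u ∈ T → v ∈ ({f, f'} : Finset V) → ¬ Me H R u v := by
        intro u v hu hv hm
        have h6 := inZ_me hG h (hT u hu) hm
        rw [mem_insert, mem_singleton] at hv
        rcases hv with rfl | rfl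
        · exact hfn h6
        · exact hfn' h6
      rw [hS, mem_union] at hu hv
      rcases hu with hu | hu <;> rcases hv with hv | hv
      · exact hnm u hu v hv huv
      · exact mixed u v hu hv huv
      · exact mixed v u hv hu huv.symm
      · exact out u v hu hv huv
    omega
  obtain ⟨l, hl⟩ := inZ_link hci
  obtain ⟨l', hl'⟩ := inZ_link hcj
  have hR : R (c i) ≠ R (c j) := by
    have a1 := cat_side_c hcat (j := i) (by omega)
    have a2 := cat_side_c hcat (j := j) (by omega)
    have b1 : pos 2 i = 1 := by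
      have : i = 0 ∨ i = 1 := by omega
      rcases this with rfl | rfl <;> rfl
    have b2 : pos 2 j = 2 := by
      have : j = 2 ∨ j = 3 := by omega
      rcases this with rfl | rfl <;> rfl
    rw [a1, a2, b1, b2]
    cases R (z 1) <;> decide
  have haS : c i ∈ ({Y l, X (l + 1), Y l', X (l' + 1)} : Finset V) := by
    rcases hl with e | e <;> rw [e] <;> simp
  have hbS : c j ∈ ({Y l, X (l + 1), Y l', X (l' + 1)} : Finset V) := by
    rcases hl' with e | e <;> rw [e] <;> simp
  have hndvd : ∀ n : ℤ, 0 < n → n < k → ¬ ((k : ℤ) ∣ n) := fun n h1 h2 hd => by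
    have := Int.le_of_dvd h1 hd
    omega
  have hndvd' : ∀ n : ℤ, -(k : ℤ) < n → n < 0 → ¬ ((k : ℤ) ∣ n) := fun n h1 h2 hd =>
    hndvd (-n) (by omega) (by omega) ((dvd_neg (α := ℤ)).2 hd)
  have xx : ∀ s t, ¬ ((k : ℤ) ∣ s - t) → X s ≠ X t := fun s t hd he => hd (h.injX _ _ he)
  have yy : ∀ s t, ¬ ((k : ℤ) ∣ s - t) → Y s ≠ Y t := fun s t hd he => hd (h.injY _ _ he)
  -- mates
  have meX : ∀ s v, Me H R (X s) v → v = Y s := fun s v hm => hG.matching hm (h.me s)
  have meY : ∀ s v, Me H R (Y s) v → v = X s := fun s v hm => hG.matching hm (h.me s).symm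
  -- the analysis of consecutive links
  have cons : ∀ (a b : V) (l l' : ℤ), R a ≠ R b → (a = Y l ∨ a = X (l + 1)) →
      (b = Y l' ∨ b = X (l' + 1)) → (k : ℤ) ∣ l' - l - 1 → ∃ T : Finset V, (∀ v ∈ T, InZ X Y v) ∧
      (∀ u ∈ T, ∀ v ∈ T, ¬ Me H R u v) ∧ T.card ≤ llS H R T + 1 ∧ a ∈ T ∧ b ∈ T := by
    intro a b l l' hR hl hl' hd
    have y1 : Y l' = Y (l + 1) := per_dvd h.perY (by
      have e : l' - (l + 1) = l' - l - 1 := by ring
      rwa [e])
    have x1 : X (l' + 1) = X (l + 2) := per_dvd h.perX (by
      have e : l' + 1 - (l + 2) = l' - l - 1 := by ring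
      rwa [e])
    rw [y1, x1] at hl'
    have hlk : ∀ (T : Finset V) (u v : V), u ∈ T → v ∈ T → He H R u v → 2 ≤ llS H R T := by
      intro T u v hu hv huv
      unfold llS
      have h1 : ∑ w ∈ ({u, v} : Finset V), (T.filter (fun x => He H R w x)).card ≤
          ∑ w ∈ T, (T.filter (fun x => He H R w x)).card := by
        refine Finset.sum_le_sum_of_subset fun w hw => ?_
        rw [mem_insert, mem_singleton] at hw
        rcases hw with rfl | rfl
        · exact hu
        · exact hv
      rw [Finset.sum_pair huv.ne] at h1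
      have h2 : 1 ≤ (T.filter (fun x => He H R u x)).card :=
        Finset.card_pos.2 ⟨v, by rw [mem_filter]; exact ⟨hv, huv⟩⟩
      have h3 : 1 ≤ (T.filter (fun x => He H R v x)).card :=
        Finset.card_pos.2 ⟨u, by rw [mem_filter]; exact ⟨hu, huv.symm⟩⟩
      omega
    rcases hl with rfl | rfl <;> rcases hl' with rfl | rfl
    · refine ⟨{Y l, Y (l + 1), X (l + 2)}, ?_, ?_, ?_, by simp, by simp⟩
      · intro v hv
        simp only [mem_insert, mem_singleton] at hv
        rcases hv with rfl | rfl | rfl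
        · exact ⟨_, Or.inr rfl⟩
        · exact ⟨_, Or.inr rfl⟩
        · exact ⟨_, Or.inl rfl⟩
      · intro u hu v hv hm
        simp only [mem_insert, mem_singleton] at hu hv
        rcases hu with rfl | rfl | rfl
        · have := meY _ _ hm
          subst this
          rcases hv with hv | hv | hv
          · exact h.xy _ _ hv
          · exact h.xy _ _ hv
          · exact xx _ _ (hndvd' _ (by omega) (by omega)) hv
        · have := meY _ _ hm
          subst this
          rcases hv with hv | hv | hv
          · exact h.xy _ _ hv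
          · exact h.xy _ _ hv
          · exact xx _ _ (hndvd' _ (by omega) (by omega)) hv
        · have := meX _ _ hm
          subst this
          rcases hv with hv | hv | hv
          · exact yy _ _ (hndvd _ (by omega) (by omega)) hv
          · exact yy _ _ (hndvd _ (by omega) (by omega)) hv
          · exact h.xy _ _ hv.symm
      · have h1 := hlk {Y l, Y (l + 1), X (l + 2)} (Y (l + 1)) (X (l + 2)) (by simp) (by simp) (by
          have := (h.lk (l + 1)).1
          rwa [show l + 1 + 1 = l + 2 by ring] at this)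
        have h2 := Finset.card_le_three (a := Y l) (b := Y (l + 1)) (c := X (l + 2))
        omega
    · exact absurd (side_two h l) hR
    · exact absurd (side_me h (l + 1)) hR
    · refine ⟨{Y l, X (l + 1), X (l + 2)}, ?_, ?_, ?_, by simp, by simp⟩
      · intro v hv
        simp only [mem_insert, mem_singleton] at hv
        rcases hv with rfl | rfl | rfl
        · exact ⟨_, Or.inr rfl⟩
        · exact ⟨_, Or.inl rfl⟩
        · exact ⟨_, Or.inl rfl⟩
      · intro u hu v hv hm
        simp only [mem_insert, mem_singleton] at hu hv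
        rcases hu with rfl | rfl | rfl
        · have := meY _ _ hm
          subst this
          rcases hv with hv | hv | hv
          · exact h.xy _ _ hv
          · exact xx _ _ (hndvd' _ (by omega) (by omega)) hv
          · exact xx _ _ (hndvd' _ (by omega) (by omega)) hv
        · have := meX _ _ hm
          subst this
          rcases hv with hv | hv | hv
          · exact yy _ _ (hndvd _ (by omega) (by omega)) hv
          · exact h.xy _ _ hv.symm
          · exact h.xy _ _ hv.symm
        · have := meX _ _ hm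
          subst this
          rcases hv with hv | hv | hv
          · exact yy _ _ (hndvd _ (by omega) (by omega)) hv
          · exact h.xy _ _ hv.symm
          · exact h.xy _ _ hv.symm
      · have h1 := hlk {Y l, X (l + 1), X (l + 2)} (Y l) (X (l + 1)) (by simp) (by simp) (h.lk l).1
        have h2 := Finset.card_le_three (a := Y l) (b := X (l + 1)) (c := X (l + 2))
        omega
  by_cases hnm : ∀ u ∈ ({Y l, X (l + 1), Y l', X (l' + 1)} : Finset V),
      ∀ v ∈ ({Y l, X (l + 1), Y l', X (l' + 1)} : Finset V), ¬ Me H R u v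
  · exact main _ (inZ_links l l') hnm
      ((card_le_llS (two_links_he (H := H) (R := R) h l l')).trans (Nat.le_succ _)) haS hbS
  · push Not at hnm
    obtain ⟨u, hu, v, hv, huv⟩ := hnm
    simp only [mem_insert, mem_singleton] at hu hv
    rcases mates_links hG h hu hv huv with hd | hd
    · obtain ⟨T, t1, t2, t3, t4, t5⟩ := cons _ _ l l' hR hl hl' hd
      exact main T t1 t2 t3 t4 t5
    · obtain ⟨T, t1, t2, t3, t4, t5⟩ := cons _ _ l' l (Ne.symm hR) hl' hl hd
      exact main T t1 t2 t3 t5 t4

end CLB.H4
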